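import Pool.Agent.MP_c60df9_co.H39.Spec

/-! An abstract forest with bounded additive values, monotone along linked chains, has bounded
size. -/

set_option autoImplicit false

namespace Pool.Agent.MP_c60df9_co.H50

open Set Filter Topology Relation
open scoped Pointwise

variable {N : Type 1}

lemma wf_iff {val : N → ℝ} {A : Set N} : (val '' A).IsWF ↔
    ∀ f, ¬ PartiallyWellOrderedOn.IsBadSeq (fun a b => val a ≤ val b) A f := by
  rw [← PartiallyWellOrderedOn.iff_forall_not_isBadSeq, ← isPWO_iff_isWF]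
  refine ⟨fun h => partiallyWellOrderedOn_iff_exists_lt.2 fun f hf => ?_,
    fun h => h.image_of_monotone_on fun _ _ _ _ h => h⟩
  exact partiallyWellOrderedOn_iff_exists_lt.1 h (fun n => val (f n)) fun n => ⟨_, hf n, rfl⟩

/-- proper descendants of `T` reached by a path avoiding `Z` -/
def De (Ch : N → N → Prop) (Z T : Set N) : Set N :=
  {u | ∃ v ∈ T, TransGen (fun a b => Ch a b ∧ b ∉ Z) v u}

lemma De.notMem {Ch : N → N → Prop} {Z T : Set N} {u : N} (h : u ∈ De Ch Z T) : u ∉ Z := by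
  obtain ⟨v, -, h⟩ := h
  cases h with
  | single h => exact h.2
  | tail _ h => exact h.2

lemma De.mono {Ch : N → N → Prop} {Z Z' T : Set N} {u : N} (h : u ∈ De Ch (Z ∪ Z') T) :
    u ∈ De Ch Z T ∧ u ∉ Z' := by
  refine ⟨?_, fun e => De.notMem h (Or.inr e)⟩
  obtain ⟨v, hv, h⟩ := h
  exact ⟨v, hv, TransGen.mono (fun a b e => ⟨e.1, fun e' => e.2 (Or.inl e')⟩) _ _ h⟩

lemma dcc {Ch : N → N → Prop} {ord sz : N → ℕ} {val : N → ℝ} {W : ℕ} {R : Set ℝ} (hR : R.IsWF)
    (h1 : ∀ v, ord v ≤ W)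
    (h2 : ∀ v, val v ∈ R ∨ ∃ l r, Ch v l ∧ Ch v r ∧ val v - val l - val r ∈ R)
    (h3 : ∀ v u, Ch v u → sz u < sz v)
    (h4 : ∀ v u, ReflTransGen (fun a b => Ch a b ∧ ord v ≤ ord b) v u → ord u = ord v →
      val u ≤ val v) : (range val).IsWF := by
  have key : ∀ k s, s + k = W + 1 → ∀ Z T : Set N, (val '' Z).IsWF →
      (∀ u ∈ De Ch Z T, s ≤ ord u) → (val '' T).IsWF := by
    intro k
    induction k with
    | zero =>
      intro s hs Z T hZ h
      refine (hR.union ((hR.add hZ).add hZ)).mono ?_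
      rintro _ ⟨v, hv, rfl⟩
      have hc : ∀ u, Ch v u → u ∈ Z := fun u hu => by
        by_contra hn
        have := h u ⟨v, hv, .single ⟨hu, hn⟩⟩
        have := h1 u
        omega
      rcases h2 v with e | ⟨l, r, hl, hr, e⟩
      · exact Or.inl e
      · exact Or.inr ⟨_, ⟨_, e, _, ⟨l, hc l hl, rfl⟩, rfl⟩, _, ⟨r, hc r hr, rfl⟩, by simp; ring⟩
    | succ k ih =>
      intro s hs Z T hZ h
      have step : ∀ T' : Set N, De Ch Z T' ⊆ De Ch Z T →
          (val '' {u ∈ De Ch Z T' | ord u = s}).IsWF → (val '' T').IsWF := by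
        intro T' hT hw
        refine ih (s + 1) (by omega) _ T' (image_union .. ▸ hZ.union hw) fun u hu => ?_
        have e1 := h u (hT (De.mono hu).1)
        have e2 : ord u ≠ s := fun e => (De.mono hu).2 ⟨(De.mono hu).1, e⟩
        omega
      refine step T subset_rfl ?_
      by_contra hn
      rw [wf_iff, not_forall_not] at hn
      obtain ⟨f, hf, hm⟩ := PartiallyWellOrderedOn.exists_min_bad_of_exists_bad _ sz _ hn
      have sub : De Ch Z (range f) ⊆ De Ch Z T := by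
        rintro u ⟨_, ⟨n, rfl⟩, hu⟩
        obtain ⟨v, hv, e⟩ := (hf.1 n).1
        exact ⟨v, hv, e.trans hu⟩
      refine wf_iff.1 (step (range f) sub (wf_iff.2 fun u hu => ?_)) f ⟨fun n => ⟨n, rfl⟩, hf.2⟩
      have lk : ∀ k, ∃ n, val (u k) ≤ val (f n) ∧ sz (u k) < sz (f n) := by
        intro k
        obtain ⟨⟨_, ⟨n, rfl⟩, e⟩, e'⟩ := hu.1 k
        have : ∀ w, TransGen (fun a b => Ch a b ∧ b ∉ Z) (f n) w →
            ReflTransGen (fun a b => Ch a b ∧ ord (f n) ≤ ord b) (f n) w ∧ sz w < sz (f n) := by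
          intro w hw
          have ho : ∀ x, TransGen (fun a b => Ch a b ∧ b ∉ Z) (f n) x → ord (f n) ≤ ord x :=
            fun x hx => (hf.1 n).2 ▸ h x (sub ⟨_, ⟨n, rfl⟩, hx⟩)
          induction hw with
          | single e => exact ⟨.single ⟨e.1, ho _ (.single e)⟩, h3 _ _ e.1⟩
          | tail e1 e2 ih =>
            exact ⟨ih.1.tail ⟨e2.1, ho _ (e1.tail e2)⟩, (h3 _ _ e2.1).trans ih.2⟩
        exact ⟨n, h4 _ _ (this _ e).1 (e'.trans (hf.1 n).2.symm), (this _ e).2⟩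
      choose nk hk hk' using lk
      obtain ⟨k0, hk0⟩ : ∃ k0, ∀ k, nk k0 ≤ nk k :=
        ⟨Function.argmin nk, fun k => Function.argmin_le nk k⟩
      refine hm (nk k0) (fun i => if i < nk k0 then f i else u (k0 + (i - nk k0)))
        (fun m hm => (if_pos hm).symm) (by simpa using hk' k0) ⟨fun i => ?_, fun i j hij => ?_⟩
      · dsimp only
        split_ifs
        · exact hf.1 i
        · exact ⟨sub (hu.1 _).1, (hu.1 _).2⟩
      · dsimp only
        split_ifs with a b b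
        · exact hf.2 i j hij
        · exact fun e => hf.2 i _ (a.trans_le (hk0 _)) (e.trans (hk _))
        · omega
        · exact hu.2 _ _ (by omega)
  simpa using key (W + 1) 0 (by simp) ∅ univ (by simp) (by simp)

lemma ev_const {α : Type} (U : Ultrafilter ℕ) {S : Set α} (hS : S.Finite) {x : ℕ → α}
    (h : ∀ᶠ n in U, x n ∈ S) : ∃ a, ∀ᶠ n in U, x n = a := by
  obtain ⟨a, -, e⟩ := (U.map x).eq_pure_of_finite_mem hS h
  refine ⟨a, ?_⟩
  have : {a} ∈ U.map x := by rw [e]; simp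
  exact this

lemma ev_le {U : Ultrafilter ℕ} {V : Set ℝ} (hV : V.IsWF) {x : ℕ → ℝ} (hx : ∀ n, x n ∈ V) {a : ℝ}
    (h : Tendsto x U (𝓝 a)) : ∀ᶠ n in U, x n ≤ a := by
  by_contra hn
  rw [← Ultrafilter.eventually_not] at hn
  obtain ⟨n, e⟩ := hn.exists
  have hw : {y ∈ V | a < y}.IsWF := hV.mono (sep_subset _ _)
  have ne : {y ∈ V | a < y}.Nonempty := ⟨x n, hx n, not_le.1 e⟩
  obtain ⟨m, e1, e2⟩ := (hn.and (h.eventually_lt_const (hw.min_mem ne).2)).exists
  exact hw.not_lt_min ne ⟨hx m, not_le.1 e1⟩ e2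

lemma ex_min {U : Ultrafilter ℕ} {V : Set ℝ} (hV : V.IsWF) {x : ℕ → ℕ → ℝ} (hx : ∀ m n, x m n ∈ V)
    {a : ℕ → ℝ} (h : ∀ m, Tendsto (x m) U (𝓝 (a m))) {M : Set ℕ} (hM : M.Nonempty) :
    ∃ m ∈ M, ∀ m' ∈ M, a m ≤ a m' := by
  by_contra hn
  push Not at hn
  have hw : {y ∈ V | ∃ m ∈ M, a m < y}.IsWF := hV.mono (sep_subset _ _)
  obtain ⟨m0, h0⟩ := hM
  obtain ⟨m1, h1, e⟩ := hn m0 h0
  obtain ⟨n, e'⟩ := ((h m0).eventually_const_lt e).exists
  have ne : {y ∈ V | ∃ m ∈ M, a m < y}.Nonempty := ⟨_, hx m0 n, m1, h1, e'⟩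
  obtain ⟨m2, h2, e2⟩ := (hw.min_mem ne).2
  obtain ⟨m3, h3, e3⟩ := hn m2 h2
  obtain ⟨k, e4, e5⟩ := (((h m2).eventually_const_lt e3).and ((h m2).eventually_lt_const e2)).exists
  exact hw.not_lt_min ne ⟨hx m2 k, m3, h3, e4⟩ e5

theorem itemB : H39.ItemB := by
  intro N ch ord val sz W c R C h1 h2 h3 h4 h5
  let Ch : N → N → Prop := fun a b => ∃ l r, ch a = some (l, r) ∧ (b = l ∨ b = r)
  have hV : (range val).IsWF := by
    refine dcc (Ch := Ch) (sz := sz) R.finite_toSet.isWF h1 (fun v => ?_) ?_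
      fun v u a b => (h5 v u a b).1
    · rcases e : ch v with _ | ⟨l, r⟩
      · exact Or.inl (h3 v e).1
      · exact Or.inr ⟨l, r, ⟨l, r, e, Or.inl rfl⟩, ⟨l, r, e, Or.inr rfl⟩, (h4 v l r e).1⟩
    · rintro v u ⟨l, r, e, rfl | rfl⟩
      · exact (h4 v _ _ e).2.1
      · exact (h4 v _ _ e).2.2.1
  have hx : ∀ v, ∃ a b, c < sz v → Ch v a ∧ val v - val a - val b ∈ R ∧ sz a < sz v ∧
      sz v ≤ 2 * sz a + c := by
    intro v
    rcases e : ch v with _ | ⟨l, r⟩
    · exact ⟨v, v, fun h => absurd (h3 v e).2 (by omega)⟩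
    obtain ⟨a1, a2, a3, a4⟩ := h4 v l r e
    rcases le_total (sz l) (sz r) with h | h
    · exact ⟨r, l, fun _ => ⟨⟨l, r, e, Or.inr rfl⟩, by rwa [sub_right_comm], a3, by omega⟩⟩
    · exact ⟨l, r, fun _ => ⟨⟨l, r, e, Or.inl rfl⟩, a1, a2, by omega⟩⟩
  choose nx ot hx using hx
  by_contra hn
  push Not at hn
  choose v0 hv0 using hn
  let U := hyperfilter ℕ
  let v : ℕ → ℕ → N := fun m n => nx^[m] (v0 n)
  have hv : ∀ m n, v (m + 1) n = nx (v m n) := fun m n => Function.iterate_succ_apply' _ _ _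
  have big : ∀ m K, ∀ᶠ n in U, K < sz (v m n) := by
    intro m
    induction m with
    | zero =>
      intro K
      have : ∀ᶠ n in U, K ≤ n := Nat.hyperfilter_le_atTop (eventually_ge_atTop K)
      exact this.mono fun n h => h.trans_lt (hv0 n)
    | succ m ih =>
      intro K
      filter_upwards [ih (2 * K + c + 1)] with n h
      have := (hx (v m n) (by omega)).2.2.2
      rw [hv]; omega
  have lim : ∀ x : ℕ → N, ∃ a, Tendsto (fun n => val (x n)) U (𝓝 a) := fun x =>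
    (isCompact_Icc.ultrafilter_le_nhds (U.map fun n => val (x n))
      (le_principal_iff.2 (mem_map.2 (Eventually.of_forall fun n => h2 (x n))))).imp fun _ h => h.2
  choose la hla using fun m => lim (v m)
  choose mu hmu using fun m => lim fun n => ot (v m n)
  have dfc : ∀ m, ∀ᶠ n in U, la (m + 1) - val (v (m + 1) n) ≤ la m - val (v m n) := by
    intro m
    obtain ⟨ρ, hρ⟩ := ev_const U R.finite_toSet
      (x := fun n => val (v m n) - val (v (m + 1) n) - val (ot (v m n)))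
      ((big m c).mono fun n h => by rw [hv]; exact (hx _ h).2.1)
    have e : la m - la (m + 1) - mu m = ρ :=
      tendsto_nhds_unique (((hla m).sub (hla (m + 1))).sub (hmu m))
        (tendsto_const_nhds.congr' (hρ.mono fun n h => h.symm))
    filter_upwards [hρ, ev_le hV (fun n => mem_range_self _) (hmu m)] with n e1 e2
    linarith
  choose o ho using fun m => ev_const U (finite_Iic W) (x := fun n => ord (v m n))
    (Eventually.of_forall fun n => h1 _)
  have ex : ∃ s, ∃ᶠ m in atTop, o m ≤ s := ⟨W, Frequently.of_forall fun m => by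
    obtain ⟨n, e⟩ := (ho m).exists
    exact e ▸ h1 _⟩
  classical
  obtain ⟨m0, hm0⟩ : ∃ m0, ∀ m ≥ m0, Nat.find ex ≤ o m := by
    rw [← eventually_atTop]
    by_contra hc
    rw [not_eventually] at hc
    have := Nat.find_min' ex (m := Nat.find ex - 1) (hc.mono fun m h => by omega)
    obtain ⟨m, e⟩ := hc.exists
    omega
  have fr : ∀ k, ∃ m ≥ k, m ∈ {m | m0 ≤ m ∧ o m ≤ Nat.find ex} :=
    frequently_atTop.1 (((Nat.find_spec ex).and_eventually (eventually_ge_atTop m0)).mono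
      fun m h => ⟨h.2, h.1⟩)
  obtain ⟨m1, a1, a2⟩ := ex_min hV (x := fun m n => val (v m n)) (fun _ _ => mem_range_self _) hla
    ((fr 0).imp fun m h => h.2)
  obtain ⟨m2, b1, b2⟩ := fr (m1 + c + 1)
  have path : ∀ d, ∀ᶠ n in U,
      ReflTransGen (fun a b => Ch a b ∧ ord (v m1 n) ≤ ord b) (v m1 n) (v (m1 + d) n) ∧
      sz (v (m1 + d) n) + d ≤ sz (v m1 n) ∧
      la (m1 + d) - val (v (m1 + d) n) ≤ la m1 - val (v m1 n) := by
    intro d
    induction d with
    | zero => exact Eventually.of_forall fun n => ⟨.refl, le_rfl, le_rfl⟩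
    | succ d ih =>
      filter_upwards [ih, big (m1 + d) c, dfc (m1 + d), ho m1, ho (m1 + d + 1)] with n e1 e2 e3
        e4 e5
      obtain ⟨c1, -, c2, -⟩ := hx _ e2
      rw [← hv] at c1 c2
      have c3 := hm0 (m1 + d + 1) (by have := a1.1; omega)
      have c4 := a1.2
      have c5 := e1.2.1
      rw [← add_assoc m1]
      exact ⟨e1.1.tail ⟨c1, by omega⟩, by omega, e3.trans e1.2.2⟩
  obtain ⟨d, rfl⟩ := Nat.exists_eq_add_of_le (show m1 ≤ m2 by omega)
  obtain ⟨n, ⟨e1, e2, e3⟩, e4, e5⟩ := ((path d).and ((ho m1).and (ho (m1 + d)))).exists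
  have c1 := hm0 _ a1.1
  have c2 := hm0 _ b2.1
  obtain ⟨f1, f2⟩ := h5 _ _ e1 (by have := a1.2; have := b2.2; omega)
  have := f2 (le_antisymm f1 (by linarith [a2 _ b2]))
  omega

end Pool.Agent.MP_c60df9_co.H50
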